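import Pool.Agent.H6.HtB

namespace Pool.Agent.Results.MP_797bdc_co.Dim2

open Pool.Agent.H6.Ht

theorem result (n : ℕ) (hn : 3 ≤ n) (T T' : Finset (Finset (Fin n)))
    (hT : IsHypertree 2 T) (hc : Collapsible 2 T) (hT' : IsHypertree 2 T')
    (hc' : Collapsible 2 T') : Relation.ReflTransGen (Exch 2) T T' :=
  (two ⟨0, by omega⟩ hT hc).trans (conn_symm (two ⟨0, by omega⟩ hT' hc'))

end Pool.Agent.Results.MP_797bdc_co.Dim2
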